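import Pool.Agent.Q120.FE.Stm
import Pool.Agent.Q75.FE.ENTF
import Pool.Agent.Q111.TT.ENTG

/-!
# Project FE, assembly
-/

set_option autoImplicit false

namespace Pool.Agent.Q120.FE

open Finset MeasureTheory Filter Pool.Agent.Q120.ET Pool.Agent.Q120.GM Pool.Agent.Q120.TT Pool.Agent.Q120.FZ
open scoped Topology

/-- All correlations of the family vanish in probability, uniformly over the family. -/
def Van {Ω : Type} [MeasurableSpace Ω] (μ : Measure Ω) (A : Ω → Set ℕ) (Fam : ℕ → Finset ((ℕ → ℝ) × Finset ℕ)) : Prop :=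
  ∀ ε : ℝ, 0 < ε → Tendsto (fun x : ℕ => μ.real {ω | ∃ q ∈ Fam x, ε * x < |tot q.1 (A ω) q.2 x|}) atTop (𝓝 0)

/-- They vanish almost surely. -/
def VanAS {Ω : Type} [MeasurableSpace Ω] (μ : Measure Ω) (A : Ω → Set ℕ) (Fam : ℕ → Finset ((ℕ → ℝ) × Finset ℕ)) : Prop :=
  ∀ᵐ ω ∂μ, ∀ ε : ℝ, 0 < ε → ∀ᶠ x : ℕ in atTop, ∀ q ∈ Fam x, |tot q.1 (A ω) q.2 x| ≤ ε * x

/-- The entropy deficit of the signs of all primes below `2 ^ (i + 1)`, relative to the number of these primes. -/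
noncomputable def dfc {Ω : Type} [MeasurableSpace Ω] (μ : Measure Ω) (A : Ω → Set ℕ) (i : ℕ) : ℝ :=
  relEnt half μ A (pl (i + 1)) * i / 2 ^ i

/-- The jobs. -/
structure Jobs : Prop where
  entg : J_ENTG
  cheb : J_CHEB
  mct : J_MCT
  depb : J_DEPB
  avgb : J_AVGB
  ptail : J_PTAIL
  badf : J_BADF
  entf : J_ENTF
  trivf : J_TRIVF
  smoothf : J_SMOOTHF
  detf : J_DETF
  dens : J_DENS
  mixf : J_MIXF

/-- The event that the scale `i ≥ 1` is bad. -/
def bev {Ω : Type} (A : Ω → Set ℕ) (Fam : ℕ → Finset ((ℕ → ℝ) × Finset ℕ)) (N : ℕ) (e : ℝ) (i : ℕ) : Set Ω :=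
  {ω | 1 ≤ i ∧ BadF Fam N e i (A ω)}

theorem half_pow_sum (n : ℕ) : ∑ i ∈ Icc 1 n, (i : ℝ) / 2 ^ i ≤ 2 := by
  have h : ∀ n : ℕ, ∑ i ∈ Icc 1 n, (i : ℝ) / 2 ^ i = 2 - (n + 2) / 2 ^ n := by
    intro n
    induction n with
    | zero => norm_num
    | succ n ih =>
      rw [← Finset.insert_Icc_right_eq_Icc_add_one (by omega), sum_insert (by rw [mem_Icc]; omega), ih, pow_succ]
      push_cast
      field_simp
      ring
  rw [h]
  have : (0 : ℝ) ≤ (n + 2) / 2 ^ n := by positivity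
  linarith

theorem log_tendsto : Tendsto (fun x : ℕ => Nat.log 2 x + 1) atTop atTop := by
  refine tendsto_atTop.2 (fun b => ?_)
  filter_upwards [eventually_ge_atTop (2 ^ b)] with x hx
  exact (Nat.le_log_of_pow_le (by norm_num) hx).trans (Nat.le_succ _)

/-- The number of the bad scales, in the notation of the jobs. -/
theorem card_bev {Ω : Type} {A : Ω → Set ℕ} (ω : Ω) (Fam : ℕ → Finset ((ℕ → ℝ) × Finset ℕ)) (N : ℕ) (e : ℝ) (L : ℕ) [DecidablePred (fun i => ω ∈ bev A Fam N e i)]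
    [DecidablePred (fun i => BadF Fam N e i (A ω))] :
    (Icc 1 L).filter (fun i => ω ∈ bev A Fam N e i) = (Icc 1 L).filter (fun i => BadF Fam N e i (A ω)) := by
  ext i
  rw [mem_filter, mem_filter, mem_Icc]
  unfold bev
  rw [Set.mem_ofPred_eq]
  tauto

section

variable (J : Jobs) {Ω : Type} [MeasurableSpace Ω] {μ : Measure Ω} [IsProbabilityMeasure μ] {A : Ω → Set ℕ}
  (hA : IsRandomSet A)

include J hA

/-- The probabilities of the bad scales. -/
theorem bev_bound {r : ℕ} {Fam : ℕ → Finset ((ℕ → ℝ) × Finset ℕ)} (hF : IsFam r Fam) (N : ℕ) {e : ℝ} (he : 0 < e) :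
    (∀ i, MeasurableSet (bev A Fam N e i)) ∧ ∃ (c : ℝ) (i₀ : ℕ), 0 < c ∧ ∀ i : ℕ, i₀ ≤ i →
      μ.real (bev A Fam N e i) ≤ ((i : ℝ) / 2 ^ i + dfc μ A i) / c := by
  obtain ⟨c, hc, h1⟩ := J.badf J.cheb J.mct J.depb J.avgb J.ptail r Fam N e hF he
  obtain ⟨i₁, hi₁⟩ := eventually_atTop.1 h1
  have h2 := J.entf J.entg J.depb Fam N e c hc Ω μ A hA
  have he' : ∀ i : ℕ, 1 ≤ i → bev A Fam N e i = {ω | BadF Fam N e i (A ω)} := by
    intro i hi
    ext ω
    unfold bev
    simp [hi]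
  refine ⟨fun i => ?_, c, max i₁ 1, hc, fun i hi => ?_⟩
  · rcases Nat.eq_zero_or_pos i with h3 | h3
    · have : bev A Fam N e i = ∅ := by
        ext ω
        unfold bev
        simp [h3]
      rw [this]
      exact MeasurableSet.empty
    · rw [he' i h3]
      exact (h2 i h3).1
  · have h3 : 1 ≤ i := (le_max_right _ _).trans hi
    have h4 := (h2 i h3).2 (hi₁ i ((le_max_left _ _).trans hi))
    rw [he' i h3]
    refine h4.trans (le_of_eq ?_)
    have hi0 : (0 : ℝ) < i := by exact_mod_cast h3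
    unfold dfc
    field_simp

/-- Full entropy in the logarithmic mean suffices in probability. -/
theorem van_of_mean {r : ℕ} {Fam : ℕ → Finset ((ℕ → ℝ) × Finset ℕ)} (hF : IsFam r Fam)
    (hD : Tendsto (fun L : ℕ => (∑ i ∈ Icc 1 L, dfc μ A i) / L) atTop (𝓝 0)) : Van μ A Fam := by
  classical
  intro ε hε
  obtain ⟨N, e, κ, he, hκ, hdet⟩ := J.detf J.cheb J.depb J.trivf J.smoothf r Fam hF ε hε
  obtain ⟨hmeas, c, i₀, hc, hb⟩ := bev_bound (μ := μ) J hA hF N he
  obtain ⟨hden, -⟩ := J.dens Ω μ (bev A Fam N e) hmeas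
  -- the mean of the probabilities of the bad scales
  have hbd : ∀ L : ℕ, 1 ≤ L → i₀ ≤ L → (∑ i ∈ Icc 1 L, μ.real (bev A Fam N e i)) / (κ * L) ≤
      ((i₀ : ℝ) + 2 / c + (∑ i ∈ Icc 1 i₀, |dfc μ A i|) / c) / κ * (1 / L) + 1 / (c * κ) * ((∑ i ∈ Icc 1 L, dfc μ A i) / L) := by
    intro L hL hiL
    have hL0 : (0 : ℝ) < L := by exact_mod_cast hL
    have h1 : ∑ i ∈ Icc 1 L, μ.real (bev A Fam N e i) ≤
        ∑ i ∈ Icc 1 L, ((if i < i₀ + 1 then (1 + |dfc μ A i| / c) else 0) + (i : ℝ) / 2 ^ i / c + dfc μ A i / c) := by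
      refine sum_le_sum (fun i hi => ?_)
      have h2 : (0 : ℝ) ≤ (i : ℝ) / 2 ^ i / c := by positivity
      split_ifs with h3
      · have h4 : μ.real (bev A Fam N e i) ≤ 1 := measureReal_le_one
        have h5 : -(dfc μ A i / c) ≤ |dfc μ A i| / c := by
          rw [← neg_div]
          exact div_le_div_of_nonneg_right (neg_le_abs _) hc.le
        linarith
      · have h4 := hb i (by omega)
        rw [add_div] at h4
        linarith
    have h2 : ∑ i ∈ Icc 1 L, ((if i < i₀ + 1 then (1 + |dfc μ A i| / c) else 0) + (i : ℝ) / 2 ^ i / c + dfc μ A i / c) =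
        ((i₀ : ℝ) + (∑ i ∈ Icc 1 i₀, |dfc μ A i|) / c) + (∑ i ∈ Icc 1 L, (i : ℝ) / 2 ^ i) / c + (∑ i ∈ Icc 1 L, dfc μ A i) / c := by
      rw [sum_add_distrib, sum_add_distrib, sum_div, sum_div, ← sum_filter]
      have h3 : (Icc 1 L).filter (fun i => i < i₀ + 1) = Icc 1 i₀ := by
        ext i
        rw [mem_filter, mem_Icc, mem_Icc]
        omega
      rw [h3, sum_add_distrib, sum_const, Nat.card_Icc, nsmul_eq_mul, mul_one, sum_div]
      simp
    rw [h2] at h1
    have h3 : (∑ i ∈ Icc 1 L, (i : ℝ) / 2 ^ i) / c ≤ 2 / c := div_le_div_of_nonneg_right (half_pow_sum L) hc.le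
    calc (∑ i ∈ Icc 1 L, μ.real (bev A Fam N e i)) / (κ * L) ≤
          (((i₀ : ℝ) + (∑ i ∈ Icc 1 i₀, |dfc μ A i|) / c) + 2 / c + (∑ i ∈ Icc 1 L, dfc μ A i) / c) / (κ * L) :=
          div_le_div_of_nonneg_right (by linarith) (by positivity)
      _ = _ := by
          field_simp
          ring
  have hlog : Tendsto (fun x : ℕ => Nat.log 2 x + 1) atTop atTop := log_tendsto
  have hlim : Tendsto (fun x : ℕ => ((i₀ : ℝ) + 2 / c + (∑ i ∈ Icc 1 i₀, |dfc μ A i|) / c) / κ * (1 / ((Nat.log 2 x + 1 : ℕ) : ℝ)) +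
      1 / (c * κ) * ((∑ i ∈ Icc 1 (Nat.log 2 x + 1), dfc μ A i) / ((Nat.log 2 x + 1 : ℕ) : ℝ))) atTop (𝓝 0) := by
    have h1 : Tendsto (fun L : ℕ => ((i₀ : ℝ) + 2 / c + (∑ i ∈ Icc 1 i₀, |dfc μ A i|) / c) / κ * (1 / (L : ℝ)) +
        1 / (c * κ) * ((∑ i ∈ Icc 1 L, dfc μ A i) / (L : ℝ))) atTop (𝓝 0) := by
      have h2 := (tendsto_one_div_atTop_nhds_zero_nat (𝕜 := ℝ)).const_mul
        (((i₀ : ℝ) + 2 / c + (∑ i ∈ Icc 1 i₀, |dfc μ A i|) / c) / κ)
      have h3 := hD.const_mul (1 / (c * κ))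
      have h4 := h2.add h3
      rw [mul_zero, mul_zero, add_zero] at h4
      exact h4
    exact h1.comp hlog
  refine squeeze_zero' (Eventually.of_forall (fun x => measureReal_nonneg)) ?_ hlim
  filter_upwards [hdet, hlog.eventually_ge_atTop i₀] with x hx hxL
  refine le_trans ?_ (hbd (Nat.log 2 x + 1) (by omega) hxL)
  refine le_trans ?_ (hden (Nat.log 2 x + 1) κ (by omega) hκ)
  refine measureReal_mono (fun ω hω => ?_)
  rw [Set.mem_ofPred_eq] at hω ⊢
  by_contra hcon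
  rw [not_lt] at hcon
  obtain ⟨q, hq, hq2⟩ := hω
  have h5 := hx (A ω) ?_ q hq
  · linarith
  · refine le_trans (le_of_eq ?_) (hcon.trans (le_of_eq ?_))
    · rw [card_bev]
    · push_cast
      rfl

/-- A convergent series suffices almost surely. -/
theorem vanAS_of_summable {r : ℕ} {Fam : ℕ → Finset ((ℕ → ℝ) × Finset ℕ)} (hF : IsFam r Fam)
    (hD : Summable (fun i : ℕ => |dfc μ A i| / i)) : VanAS μ A Fam := by
  classical
  have hkey : ∀ j : ℕ, ∀ᵐ ω ∂μ, ∀ᶠ x : ℕ in atTop, ∀ q ∈ Fam x, |tot q.1 (A ω) q.2 x| ≤ 1 / ((j : ℝ) + 1) * x := by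
    intro j
    obtain ⟨N, e, κ, he, hκ, hdet⟩ := J.detf J.cheb J.depb J.trivf J.smoothf r Fam hF (1 / ((j : ℝ) + 1)) (by positivity)
    obtain ⟨hmeas, c, i₀, hc, hb⟩ := bev_bound (μ := μ) J hA hF N he
    obtain ⟨-, hden⟩ := J.dens Ω μ (bev A Fam N e) hmeas
    have hsum : Summable (fun i : ℕ => μ.real (bev A Fam N e i) / i) := by
      have h1 : Summable (fun i : ℕ => (1 / c) * ((1 / 2 : ℝ) ^ i) + (1 / c) * (|dfc μ A i| / i)) :=
        ((summable_geometric_of_lt_one (by norm_num) (by norm_num)).mul_left _).add (hD.mul_left _)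
      refine Summable.of_norm_bounded_eventually_nat h1 ?_
      filter_upwards [eventually_ge_atTop i₀, eventually_ge_atTop 1] with i h2 h3
      have hi0 : (0 : ℝ) < i := by exact_mod_cast h3
      rw [Real.norm_of_nonneg (by positivity)]
      calc μ.real (bev A Fam N e i) / i ≤ ((i : ℝ) / 2 ^ i + dfc μ A i) / c / i :=
            div_le_div_of_nonneg_right (hb i h2) hi0.le
        _ ≤ ((i : ℝ) / 2 ^ i + |dfc μ A i|) / c / i := by
            refine div_le_div_of_nonneg_right (div_le_div_of_nonneg_right ?_ hc.le) hi0.le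
            have := le_abs_self (dfc μ A i)
            linarith
        _ = (1 / c) * ((1 / 2 : ℝ) ^ i) + (1 / c) * (|dfc μ A i| / i) := by
            rw [div_pow, one_pow]
            field_simp
    filter_upwards [hden hsum] with ω hω
    have hlog : Tendsto (fun x : ℕ => Nat.log 2 x + 1) atTop atTop := log_tendsto
    have h2 := (hω.comp hlog).eventually (gt_mem_nhds hκ)
    filter_upwards [hdet, h2] with x hx h3
    refine hx (A ω) ?_
    rw [Function.comp_apply, div_lt_iff₀ (by positivity)] at h3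
    refine le_trans (le_of_eq ?_) (h3.le.trans (le_of_eq ?_))
    · rw [card_bev]
    · push_cast
      rfl
  filter_upwards [ae_all_iff.2 hkey] with ω hω ε hε
  obtain ⟨j, hj⟩ := exists_nat_one_div_lt hε
  filter_upwards [hω j] with x hx q hq
  exact (hx q hq).trans (mul_le_mul_of_nonneg_right hj.le (Nat.cast_nonneg _))

end

/-! ## The class of a bound for the deficits -/

/-- The deficits are at most `δ i`. -/
def InCl {Ω : Type} [MeasurableSpace Ω] (μ : Measure Ω) (A : Ω → Set ℕ) (δ : ℕ → ℝ) : Prop :=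
  ∀ i : ℕ, 1 ≤ i → relEnt half μ A (pl (i + 1)) ≤ δ i * (2 ^ i / i)

/-- Chowla's conjecture in probability for all functions of the class and all families of patterns. -/
def AllVan (δ : ℕ → ℝ) : Prop := ∀ (Ω : Type) [MeasurableSpace Ω] (μ : Measure Ω) [IsProbabilityMeasure μ] (A : Ω → Set ℕ),
  IsRandomSet A → InCl μ A δ → ∀ (r : ℕ) (Fam : ℕ → Finset ((ℕ → ℝ) × Finset ℕ)), IsFam r Fam → Van μ A Fam

/-- The same for one pattern `h` without weights. -/
def OneVan (h : Finset ℕ) (δ : ℕ → ℝ) : Prop := ∀ (Ω : Type) [MeasurableSpace Ω] (μ : Measure Ω) [IsProbabilityMeasure μ]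
  (A : Ω → Set ℕ), IsRandomSet A → InCl μ A δ → ∀ ε : ℝ, 0 < ε →
    Tendsto (fun x : ℕ => μ.real {ω | ε * x < |∑ n ∈ Icc 1 x, ∏ j ∈ h, lam (A ω) (n + j)|}) atTop (𝓝 0)

theorem dfc_le {Ω : Type} [MeasurableSpace Ω] {μ : Measure Ω} {A : Ω → Set ℕ} {δ : ℕ → ℝ} (h : InCl μ A δ) {i : ℕ} (hi : 1 ≤ i) :
    dfc μ A i ≤ δ i := by
  have hi0 : (0 : ℝ) < i := by exact_mod_cast hi
  unfold dfc
  rw [div_le_iff₀ (by positivity)]
  calc relEnt half μ A (pl (i + 1)) * i ≤ δ i * (2 ^ i / i) * i := mul_le_mul_of_nonneg_right (h i hi) hi0.le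
    _ = δ i * 2 ^ i := by field_simp

theorem relEnt_nonneg {Ω : Type} [MeasurableSpace Ω] {μ : Measure Ω} [IsProbabilityMeasure μ] {A : Ω → Set ℕ}
    (hA : IsRandomSet A) (B : Finset ℕ) : 0 ≤ relEnt half μ A B := by
  have hlaw : IsLaw half B (lawOn μ A B) :=
    ⟨fun T _ => measureReal_nonneg, sum_law hA _, fun T _ h0 => absurd h0 (Pool.Agent.Q75.FE.prodOn_half_pos _ _).ne'⟩
  have h1 := Pool.Agent.Q111.TT.entropy_gen (p := half) (B := B) (fun n _ => by unfold half; norm_num) hlaw (fun _ => False) 0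
  unfold relEnt
  simpa using h1

theorem dfc_nonneg {Ω : Type} [MeasurableSpace Ω] {μ : Measure Ω} [IsProbabilityMeasure μ] {A : Ω → Set ℕ}
    (hA : IsRandomSet A) (i : ℕ) : 0 ≤ dfc μ A i := by
  unfold dfc
  have := relEnt_nonneg (μ := μ) hA (pl (i + 1))
  positivity

/-- The number of the primes below `2 ^ (i + 1)`. -/
theorem card_pl (hC : J_CHEB) : ∃ C : ℝ, 0 < C ∧ ∀ i : ℕ, 1 ≤ i → ((pl (i + 1)).card : ℝ) ≤ C * (2 ^ i / i) := by
  obtain ⟨K, hK, h⟩ := hC
  have hsplit : ∀ i : ℕ, pl (i + 2) ⊆ pl (i + 1) ∪ pb (i + 1) := by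
    intro i p hp
    unfold pl at hp
    rw [mem_filter, mem_range] at hp
    rw [mem_union]
    rcases Nat.lt_or_ge p (2 ^ (i + 1)) with h1 | h1
    · left
      unfold pl
      rw [mem_filter, mem_range]
      exact ⟨h1, hp.2⟩
    · right
      unfold pb block
      rw [mem_filter, mem_Ico]
      exact ⟨⟨h1, hp.1⟩, hp.2⟩
  have hcard : ∀ i : ℕ, ((pl (i + 2)).card : ℝ) ≤ (pl (i + 1)).card + K * (2 ^ (i + 1) / (i + 1 : ℕ)) := by
    intro i
    have h1 : (pl (i + 2)).card ≤ (pl (i + 1)).card + (pb (i + 1)).card :=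
      (card_le_card (hsplit i)).trans (card_union_le _ _)
    have h2 : ((pl (i + 2)).card : ℝ) ≤ (pl (i + 1)).card + (pb (i + 1)).card := by exact_mod_cast h1
    exact h2.trans (add_le_add le_rfl (h (i + 1) (by omega)))
  have h2 : pl 2 ⊆ {2, 3} := by
    intro p hp
    unfold pl at hp
    rw [mem_filter, mem_range] at hp
    have h3 := hp.2.two_le
    rw [mem_insert, mem_singleton]
    omega
  have h3 : ((pl 2).card : ℝ) ≤ 2 := by
    have := card_le_card h2
    have h4 : ({2, 3} : Finset ℕ).card = 2 := by decide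
    rw [h4] at this
    exact_mod_cast this
  refine ⟨4 * K + 4, by linarith, fun i hi => ?_⟩
  induction i, hi using Nat.le_induction with
  | base =>
    norm_num
    linarith
  | succ i hi ih =>
    refine (hcard i).trans ?_
    rcases Nat.lt_or_ge i 2 with h4 | h4
    · have h5 : i = 1 := by omega
      subst h5
      norm_num
      linarith
    · have hi2 : (2 : ℝ) ≤ i := by exact_mod_cast h4
      have hi0 : (0 : ℝ) < i := by linarith
      have h5 : (4 * K + 4) * (2 ^ i / (i : ℝ)) + K * (2 ^ (i + 1) / ((i + 1 : ℕ) : ℝ)) ≤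
          (4 * K + 4) * (2 ^ (i + 1) / ((i + 1 : ℕ) : ℝ)) := by
        rw [pow_succ]
        push_cast
        have h6 : (4 * K + 4) * (2 ^ i * 2 / ((i : ℝ) + 1)) - (4 * K + 4) * (2 ^ i / (i : ℝ)) - K * (2 ^ i * 2 / ((i : ℝ) + 1)) =
            2 ^ i * ((4 * K + 4) * (i - 1) - 2 * K * i) / (i * (i + 1)) := by
          field_simp
          ring
        have h7 : 0 ≤ 2 ^ i * ((4 * K + 4) * ((i : ℝ) - 1) - 2 * K * i) / (i * (i + 1)) := by
          refine div_nonneg (mul_nonneg (by positivity) ?_) (by positivity)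
          nlinarith
        linarith
      linarith

theorem lam_univ {n : ℕ} (hn : 1 ≤ n) : lam Set.univ n = 1 := by
  unfold lam
  rw [if_neg (by omega)]
  have : n.primeFactorsList.map (sg Set.univ) = n.primeFactorsList.map (fun _ => (1 : ℝ)) := by
    apply List.map_congr_left
    intro p _
    unfold sg
    rw [if_pos (Set.mem_univ _)]
  rw [this]
  simp

/-- Mean zero from a bound tending to zero. -/
theorem mean_of_tendsto {a δ : ℕ → ℝ} (h0 : ∀ i, 0 ≤ a i) (h1 : ∀ i, 1 ≤ i → a i ≤ δ i) (hδ : Tendsto δ atTop (𝓝 0)) :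
    Tendsto (fun L : ℕ => (∑ i ∈ Icc 1 L, a i) / L) atTop (𝓝 0) := by
  have h2 : Tendsto a atTop (𝓝 0) := by
    refine squeeze_zero' (Eventually.of_forall h0) ?_ hδ
    filter_upwards [eventually_ge_atTop 1] with i hi
    exact h1 i hi
  have h3 : Tendsto (fun i => a (i + 1)) atTop (𝓝 0) := (tendsto_add_atTop_iff_nat 1).2 h2
  have h4 := h3.cesaro
  refine h4.congr (fun L => ?_)
  rw [inv_mul_eq_div]
  congr 1
  rw [range_eq_Ico, sum_Ico_add' a 0 L 1]
  refine sum_congr ?_ (fun _ _ => rfl)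
  ext i
  rw [mem_Ico, mem_Icc]
  omega

theorem allVan_of_tendsto (J : Jobs) {δ : ℕ → ℝ} (hδ : Tendsto δ atTop (𝓝 0)) : AllVan δ := by
  intro Ω _ μ _ A hA hcl r Fam hF
  exact van_of_mean J hA hF (mean_of_tendsto (dfc_nonneg hA) (fun i hi => dfc_le hcl hi) hδ)

open Classical in
theorem oneVan_of_allVan {h : Finset ℕ} {δ : ℕ → ℝ} (hh : h.Nonempty) (hV : AllVan δ) : OneVan h δ := by
  intro Ω _ μ _ A hA hcl ε hε
  obtain ⟨Fam, hFam⟩ : ∃ Fam : ℕ → Finset ((ℕ → ℝ) × Finset ℕ),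
      Fam = fun x => if (∀ j ∈ h, j ≤ x) then {((fun _ => (1 : ℝ)), h)} else ∅ := ⟨_, rfl⟩
  have hmem : ∀ x, ∀ q ∈ Fam x, (∀ j ∈ h, j ≤ x) ∧ q = ((fun _ => (1 : ℝ)), h) := by
    intro x q hq
    rw [hFam] at hq
    simp only at hq
    split_ifs at hq with h1
    · exact ⟨h1, mem_singleton.1 hq⟩
    · exact absurd hq (notMem_empty _)
  have hF : IsFam h.card Fam := by
    refine ⟨fun x q hq n => ?_, fun x q hq => ?_, fun x q hq => ?_, fun x q hq j hj => ?_, fun ε' hε' => ?_⟩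
    · rw [(hmem x q hq).2]
      simp
    · rw [(hmem x q hq).2]
      exact hh
    · rw [(hmem x q hq).2]
    · rw [(hmem x q hq).2] at hj
      exact (hmem x q hq).1 j hj
    · refine Eventually.of_forall (fun x => ?_)
      have h1 : (Fam x).card ≤ 1 := by
        rw [hFam]
        simp only
        split_ifs
        · rw [card_singleton]
        · rw [card_empty]
          omega
      have h2 : ((Fam x).card : ℝ) ≤ 1 := by exact_mod_cast h1
      exact h2.trans (Real.one_le_exp (Real.rpow_nonneg (Nat.cast_nonneg _) _))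
  refine squeeze_zero' (Eventually.of_forall (fun x => measureReal_nonneg)) ?_ (hV Ω μ A hA hcl h.card Fam hF ε hε)
  filter_upwards [eventually_ge_atTop (h.sup id)] with x hx
  refine measureReal_mono (fun ω hω => ?_)
  rw [Set.mem_ofPred_eq] at hω ⊢
  refine ⟨((fun _ => (1 : ℝ)), h), ?_, ?_⟩
  · rw [hFam]
    simp only
    have h5 : ∀ j ∈ h, j ≤ x := fun j hj => le_trans (le_sup (f := id) hj) hx
    rw [if_pos h5]
    exact mem_singleton_self _
  · unfold tot cor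
    simpa using hω

theorem tendsto_of_oneVan (J : Jobs) {h : Finset ℕ} {δ : ℕ → ℝ} (h0 : ∀ i, 0 ≤ δ i) (hanti : Antitone δ) (hV : OneVan h δ) :
    Tendsto δ atTop (𝓝 0) := by
  classical
  have hbdd : BddBelow (Set.range δ) := ⟨0, by rintro _ ⟨i, rfl⟩; exact h0 i⟩
  have hlim := tendsto_atTop_ciInf hanti hbdd
  obtain ⟨l, hl⟩ : ∃ l : ℝ, l = ⨅ i, δ i := ⟨_, rfl⟩
  rw [← hl] at hlim
  have hle : ∀ i, l ≤ δ i := fun i => by rw [hl]; exact ciInf_le hbdd i
  have hl0 : 0 ≤ l := by rw [hl]; exact le_ciInf h0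
  rcases hl0.eq_or_lt with h1 | h1
  · rw [h1]
    exact hlim
  exfalso
  obtain ⟨C, hC, hcard⟩ := card_pl J.cheb
  have hlog : 0 < Real.log 2 := Real.log_pos (by norm_num)
  obtain ⟨q, hq⟩ : ∃ q : ℝ, q = min 1 (l / (C * Real.log 2)) := ⟨_, rfl⟩
  have hq0 : 0 < q := by rw [hq]; exact lt_min one_pos (by positivity)
  have hq1 : q ≤ 1 := by rw [hq]; exact min_le_left _ _
  have hq2 : q * (C * Real.log 2) ≤ l := by
    have : q ≤ l / (C * Real.log 2) := by rw [hq]; exact min_le_right _ _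
    rwa [le_div_iff₀ (by positivity)] at this
  obtain ⟨Ω, hΩ, μ, hμ, A, hA, hent, hprob⟩ := J.mixf q hq0.le hq1
  have hcl : InCl μ A δ := by
    intro i hi
    have hi0 : (0 : ℝ) < i := by exact_mod_cast hi
    calc relEnt half μ A (pl (i + 1)) ≤ q * ((pl (i + 1)).card * Real.log 2) := hent _
      _ ≤ q * (C * (2 ^ i / i) * Real.log 2) :=
          mul_le_mul_of_nonneg_left (mul_le_mul_of_nonneg_right (hcard i hi) hlog.le) hq0.le
      _ = q * (C * Real.log 2) * (2 ^ i / i) := by ring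
      _ ≤ l * (2 ^ i / i) := mul_le_mul_of_nonneg_right hq2 (by positivity)
      _ ≤ δ i * (2 ^ i / i) := mul_le_mul_of_nonneg_right (hle i) (by positivity)
  have h2 := hV Ω μ A hA hcl (1 / 2) (by norm_num)
  have h3 : ∀ᶠ x : ℕ in atTop, q ≤ μ.real {ω | (1 / 2 : ℝ) * x < |∑ n ∈ Icc 1 x, ∏ j ∈ h, lam (A ω) (n + j)|} := by
    filter_upwards [eventually_ge_atTop 1] with x hx
    refine hprob.trans (measureReal_mono (fun ω hω => ?_))
    rw [Set.mem_ofPred_eq] at hω ⊢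
    rw [hω]
    have h4 : ∑ n ∈ Icc 1 x, ∏ j ∈ h, lam Set.univ (n + j) = x := by
      have h5 : ∀ n ∈ Icc 1 x, ∏ j ∈ h, lam Set.univ (n + j) = 1 := by
        intro n hn
        rw [mem_Icc] at hn
        exact prod_eq_one (fun j _ => lam_univ (by omega))
      rw [sum_congr rfl h5]
      simp
    rw [h4, abs_of_nonneg (Nat.cast_nonneg _)]
    have : (1 : ℝ) ≤ x := by exact_mod_cast hx
    linarith
  have h4 := ge_of_tendsto h2 h3
  linarith

end Pool.Agent.Q120.FE
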