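import Pool.Agent.Q120.FZ.Stm

/-!
# Project FE: Chowla's conjecture for ALL random multiplicative functions of full entropy

`f` is a random completely multiplicative function with values `1`, `-1`, `f = lam (A ω)` (`Q120.FZ.Stm`; `A ω` the set of the
primes with `f p = 1`), with an ARBITRARY joint law of the signs. Let `D_i = relEnt half μ A (pl (i + 1))` be the entropy deficit of
the signs of all primes below `2 ^ (i + 1)` (their number times `log 2` minus their entropy), and `δ_i = D_i * i / 2 ^ i`, i.e.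
`D_i` relative to the number of primes. Results: (1) if `(1 / L) ∑_{i ≤ L} δ_i → 0` (in particular if the entropy is
`(1 - o(1)) π(x) log 2`) then all correlations vanish: for all families of at most `exp (x ^ o(1))` pairs (weights `|w n| ≤ 1`, sets `h` of
at most `r` shifts up to `x`) the probability that `ε x < |∑_{n ≤ x} w n ∏_{j ∈ h} f (n + j)|` for one of the pairs tends to `0`;
(2) almost surely `o(x)` for all the pairs if `∑ δ_i / i < ∞`; (3) for nonincreasing bounds `δ_i` the condition `δ_i → 0` is also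
necessary, already for one pattern `h` and `w = 1`. Proof: decomposition according to the dyadic block of the largest prime
factor, bounded differences, the entropy inequality, density of the bad scales.

Each job is a definition `J_… : Prop`; a theorem `t_… : J_…` is to be proved. The proofs are complete in the docstrings.
-/

set_option autoImplicit false

namespace Pool.Agent.Q120.FE

open Finset MeasureTheory Filter Pool.Agent.Q120.ET Pool.Agent.Q120.GM Pool.Agent.Q120.TT Pool.Agent.Q120.FZ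
open scoped Topology

/-- The primes below `2 ^ k`. -/
def pl (k : ℕ) : Finset ℕ := (range (2 ^ k)).filter Nat.Prime

/-- The index of the dyadic block of the largest prime factor of the numbers `n + j`, `j ∈ h`. -/
def bi (h : Finset ℕ) (n : ℕ) : ℕ := h.sup (fun j => (n + j).primeFactors.sup (Nat.log 2))

/-- The correlation. -/
noncomputable def cor (S : Set ℕ) (h : Finset ℕ) (n : ℕ) : ℝ := ∏ j ∈ h, lam S (n + j)

/-- The part of the sum where the largest prime factor lies in the block `i`. -/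
noncomputable def part (w : ℕ → ℝ) (S : Set ℕ) (h : Finset ℕ) (x i : ℕ) : ℝ :=
  ∑ n ∈ (Icc 1 x).filter (fun n => bi h n = i), w n * cor S h n

/-- The weighted sum. -/
noncomputable def tot (w : ℕ → ℝ) (S : Set ℕ) (h : Finset ℕ) (x : ℕ) : ℝ := ∑ n ∈ Icc 1 x, w n * cor S h n

/-- For each `x` a family of at most `exp (x ^ o(1))` pairs of a weight and a set of at most `r` shifts up to `x`. -/
structure IsFam (r : ℕ) (Fam : ℕ → Finset ((ℕ → ℝ) × Finset ℕ)) : Prop where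
  weight : ∀ x, ∀ q ∈ Fam x, ∀ n, |q.1 n| ≤ 1
  nonempty : ∀ x, ∀ q ∈ Fam x, q.2.Nonempty
  card : ∀ x, ∀ q ∈ Fam x, q.2.card ≤ r
  shift : ∀ x, ∀ q ∈ Fam x, ∀ j ∈ q.2, j ≤ x
  size : ∀ ε : ℝ, 0 < ε → ∀ᶠ x : ℕ in atTop, ((Fam x).card : ℝ) ≤ Real.exp ((x : ℝ) ^ ε)

/-- **Job CHEB.** Chebyshev's bound for a dyadic block. Any source (Mathlib, the pool library) or the usual proof with the
binomial coefficient `(2N choose N) ≤ 4 ^ N`, `N = 2 ^ i`, divisible by all primes in `(N, 2N]`: `N ^ |pb i| ≤ 4 ^ N`. -/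
def J_CHEB : Prop := ∃ K : ℝ, 0 < K ∧ ∀ i : ℕ, 1 ≤ i → ((pb i).card : ℝ) ≤ K * (2 ^ i / i)

open Classical in
/-- **Job MCT.** McDiarmid's inequality for fair signs, conditioned on the signs outside `B₁`.
Proof. Let `E p g T = (g (insert p T) + g (T.erase p)) / 2`. For `l : ℝ` and `p ∈ B` pairing `T`, `T ∆ {p}` gives
`∑ prodOn half B T * exp (l * g T) ≤ exp (l ^ 2 c ^ 2 / 2) * ∑ prodOn half B T * exp (l * E p g T)` if
`|g (insert p T) - g (T.erase p)| ≤ 2 c`, as `(e ^ a + e ^ b) / 2 ≤ e ^ ((a + b) / 2) * e ^ ((a - b) ^ 2 / 8)` (`Real.cosh_le_exp_half_sq`), and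
`E p g` satisfies the same bound for the other `p' ∈ B₁`. Applying this for all `p ∈ B₁` (induction) the function becomes
`T ↦ 2 ^ (-|B₁|) ∑ T₁ ⊆ B₁, g ((T \ B₁) ∪ T₁)`, of absolute value at most `M`. So
`∑ prodOn half B T * exp (l g T) ≤ exp (|l| M + l ^ 2 c ^ 2 |B₁| / 2)`; take `l = ± u / (c ^ 2 |B₁|)` (Markov). (If `|B₁| = 0` the
right side is `2`.) -/
def J_MCT : Prop := ∀ (B B₁ : Finset ℕ), B₁ ⊆ B → ∀ (g : Finset ℕ → ℝ) (c M u : ℝ), 0 < c →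
  (∀ T ⊆ B, ∀ p ∈ B₁, |g (insert p T) - g (T.erase p)| ≤ 2 * c) →
  (∀ T₀ ⊆ B \ B₁, |∑ T₁ ∈ B₁.powerset, g (T₀ ∪ T₁)| ≤ M * 2 ^ B₁.card) → 0 < u →
    ∑ T ∈ B.powerset with M + u ≤ |g T|, prodOn half B T ≤ 2 * Real.exp (-(u ^ 2 / (2 * c ^ 2 * B₁.card)))

/-- **Job DEPB.** Dependence on the primes, bounded differences.
Proof. `lam S m` is the product of the signs of the prime factors of `m`. (a) All prime factors of the `n + j` have
`Nat.log 2 p ≤ bi h n`, i.e. `p < 2 ^ (bi h n + 1)`. (b) `cor` changes (by at most `2`) only for the `n` for which `p` divides some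
`n + j`, `j ∈ h`: at most `r (x / p + 1)` of the `n ∈ [1, x]`, and `p ≥ 2 ^ i`. `|lam| ≤ 1`. -/
def J_DEPB : Prop := (∀ (S S' : Set ℕ) (h : Finset ℕ) (n i : ℕ), bi h n ≤ i →
    (∀ p : ℕ, p.Prime → p < 2 ^ (i + 1) → (p ∈ S ↔ p ∈ S')) → cor S h n = cor S' h n) ∧
  (∀ (w : ℕ → ℝ) (S : Set ℕ) (h : Finset ℕ) (r x i p : ℕ), (∀ n, |w n| ≤ 1) → h.card ≤ r → p ∈ pb i →
    |part w (insert p S) h x i - part w (S \ {p}) h x i| ≤ 2 * (r * ((x : ℝ) / 2 ^ i + 1))) ∧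
  ∀ (S : Set ℕ) (h : Finset ℕ) (n : ℕ), |cor S h n| ≤ 1

/-- **Job AVGB.** The average over the signs of the block.
Proof. For fixed `n` with `bi h n = i` the average of `cor` over `T₁ ⊆ pb i` is `0` if for some `p ∈ pb i` the exponent of `p` in
`∏_{j ∈ h} (n + j)` is odd (pairing `T₁`, `T₁ ∆ {p}`). As `bi h n = i ≥ 1` some `p ∈ pb i` divides some `n + j`, so otherwise (a)
`p ^ 2 ∣ n + j` for some `p ∈ pb i`, `j ∈ h`, or (b) `p ∣ n + j`, `p ∣ n + l` for some `p ∈ pb i`, `j ≠ l` in `h`. (a): `p ^ 2 ≤ 2 x`, at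
most `x / p ^ 2 + 1 ≤ 3 x / 4 ^ i` values of `n` for each of the at most `2 ^ i` primes and `r` shifts; (b): `p ∣ |j - l| ≤ x`, at most
`Nat.log 2 x` primes for each pair, `p ≤ 2 x`, at most `x / p + 1 ≤ 3 x / 2 ^ i` values of `n`. Total at most
`3 r x / 2 ^ i + 3 r ^ 2 x Nat.log 2 x / 2 ^ i`. -/
def J_AVGB : Prop := ∀ (w : ℕ → ℝ) (h : Finset ℕ) (r x i : ℕ), (∀ n, |w n| ≤ 1) → h.card ≤ r → (∀ j ∈ h, j ≤ x) → 1 ≤ i →
  2 ^ i ≤ 2 * x → ∀ T₀ ⊆ pl i, |∑ T₁ ∈ (pb i).powerset, part w ((T₀ ∪ T₁ : Finset ℕ) : Set ℕ) h x i| ≤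
    9 * (r + 1) ^ 2 * x * (Nat.log 2 x + 1) / 2 ^ i * 2 ^ (pb i).card

open Classical in
/-- **Job PTAIL** (uses CHEB, MCT, DEPB, AVGB). The tail of a part.
Proof. MCT with `B = pl (i + 1) = pl i ∪ pb i` (disjoint), `B₁ = pb i`, `c = r (x / 2 ^ i + 1) ≤ 3 r x / 2 ^ i` (replace `r` by `r + 1` to have
`c > 0`), `M` as in AVGB, and `|pb i| ≤ K 2 ^ i / i`: `u ^ 2 / (2 c ^ 2 |B₁|) ≥ u ^ 2 i 2 ^ i / (18 K (r + 1) ^ 2 x ^ 2)`. -/
def J_PTAIL : Prop := J_CHEB → J_MCT → J_DEPB → J_AVGB → ∀ r : ℕ, ∃ κ : ℝ, 0 < κ ∧ ∀ (w : ℕ → ℝ) (h : Finset ℕ) (x i : ℕ) (u : ℝ),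
  (∀ n, |w n| ≤ 1) → h.card ≤ r → (∀ j ∈ h, j ≤ x) → 1 ≤ i → 2 ^ i ≤ 2 * x → 0 < u →
    ∑ T ∈ (pl (i + 1)).powerset with
        9 * (r + 1) ^ 2 * (x : ℝ) * (Nat.log 2 x + 1) / 2 ^ i + u ≤ |part w ((T : Finset ℕ) : Set ℕ) h x i|,
      prodOn half (pl (i + 1)) T ≤ 2 * Real.exp (-(κ * u ^ 2 * i * 2 ^ i / x ^ 2))

/-- The scale `i` is bad. -/
def BadF (Fam : ℕ → Finset ((ℕ → ℝ) × Finset ℕ)) (N : ℕ) (e : ℝ) (i : ℕ) (S : Set ℕ) : Prop :=
  ∃ x : ℕ, 2 ^ i ≤ 2 * x ∧ x ≤ 2 ^ (N * i) ∧ ∃ q ∈ Fam x, e * (x / i) ≤ |part q.1 S q.2 x i|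

open Classical in
/-- **Job BADF** (uses CHEB, MCT, DEPB, AVGB, PTAIL). A bad scale is very unlikely for independent fair signs.
Proof. Union over the `x ≤ 2 ^ (N i)` and `q ∈ Fam x`. For large `i` `9 (r + 1) ^ 2 (N i + 1) / 2 ^ i ≤ e / (2 i)`, so PTAIL with
`u = e x / (2 i)`: at most `2 exp (-κ e ^ 2 2 ^ i / (4 i))` each. `|Fam x| ≤ exp (x ^ ε) ≤ exp (2 ^ (i / 4))` for `ε = 1 / (4 N + 4)`,
`x ≤ 2 ^ (N i)`, `x ≥ 2 ^ i / 2` large. `(2 ^ (N i) + 1) * 2 * exp (2 ^ (i / 4)) * exp (-κ e ^ 2 2 ^ i / (4 i)) ≤ exp (-κ e ^ 2 2 ^ i / (8 i))`. -/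
def J_BADF : Prop := J_CHEB → J_MCT → J_DEPB → J_AVGB → J_PTAIL → ∀ (r : ℕ) (Fam : ℕ → Finset ((ℕ → ℝ) × Finset ℕ)) (N : ℕ) (e : ℝ),
  IsFam r Fam → 0 < e → ∃ c : ℝ, 0 < c ∧ ∀ᶠ i : ℕ in atTop,
    ∑ T ∈ (pl (i + 1)).powerset with BadF Fam N e i ((T : Finset ℕ) : Set ℕ), prodOn half (pl (i + 1)) T ≤
      Real.exp (-(c * (2 ^ i / i)))

open Classical in
/-- **Job ENTF** (uses ENTG, DEPB and the conclusion of BADF). A bad scale is unlikely for every random function.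
Proof. By DEPB (a) `BadF … (A ω) ↔ BadF … (tr A (pl (i + 1)) ω)`, and this is an event of the finitely many `{n ∈ A ω}` (measurable:
a finite union of the events `tr A B ω = T`, see the proof of `ET.real_event`). `lawOn μ A (pl (i + 1))` is a law (`IsLaw half`). ENTG
with `u = c * (2 ^ i / i)`. -/
def J_ENTF : Prop := J_ENTG → J_DEPB → ∀ (Fam : ℕ → Finset ((ℕ → ℝ) × Finset ℕ)) (N : ℕ) (e c : ℝ), 0 < c →
  ∀ (Ω : Type) [MeasurableSpace Ω] (μ : Measure Ω) [IsProbabilityMeasure μ] (A : Ω → Set ℕ), IsRandomSet A → ∀ i : ℕ, 1 ≤ i →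
    MeasurableSet {ω | BadF Fam N e i (A ω)} ∧
    (∑ T ∈ (pl (i + 1)).powerset with BadF Fam N e i ((T : Finset ℕ) : Set ℕ), prodOn half (pl (i + 1)) T ≤
      Real.exp (-(c * (2 ^ i / i))) →
        μ.real {ω | BadF Fam N e i (A ω)} ≤ (1 + relEnt half μ A (pl (i + 1))) / (c * (2 ^ i / i)))

/-- **Job TRIVF** (uses CHEB). The trivial bound for a part.
Proof. `bi h n = i ≥ 1` gives a prime `p ∈ pb i` dividing some `n + j`: at most
`∑_{j ∈ h} ∑_{p ∈ pb i, p ≤ 2 x} (x / p + 1) ≤ r * K (2 ^ i / i) * 3 x / 2 ^ i`. -/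
def J_TRIVF : Prop := J_CHEB → ∀ r : ℕ, ∃ C : ℝ, 0 < C ∧ ∀ (h : Finset ℕ) (x i : ℕ), h.card ≤ r → (∀ j ∈ h, j ≤ x) → 1 ≤ i →
  2 ^ i ≤ 2 * x → (((Icc 1 x).filter (fun n => bi h n = i)).card : ℝ) ≤ C * (x / i)

/-- **Job SMOOTHF** (uses CHEB). Numbers without large prime factors.
Proof. Let `j ∈ h`, `L = Nat.log 2 x`, `i₀ = L / N`, `y = 2 ^ i₀ ≤ x ^ (1/N)`. If `bi h n < i₀` then all prime factors of `m = n + j` are below `y`.
`∑_{m ∈ (j, j + x]} ∑_{p ^ k ∣ m, k ≥ 1, p < y} log p ≤ ∑_{p < y} ∑_{k, p ^ k ≤ 2 x} (x / p ^ k + 1) log p ≤ x ∑_{p < y} log p / (p - 1) + y log (2 x)`,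
and `∑_{p < y} log p / (p - 1) ≤ ∑_{1 ≤ i < i₀} |pb i| (i + 1) / (2 ^ i - 1) ≤ 4 K i₀` by CHEB (`log p ≤ i + 1`, `p - 1 ≥ 2 ^ (i - 1)`; the constant
does not matter). Each such `m ≥ √x` contributes `log m ≥ (1/2) log x`. So there are at most
`√x + 2 (4 K i₀ x + y log (2 x)) / log x ≤ C x / N` for large `x`. (For `N ≥ 2`; for `N = 1` take `C ≥ 1`.) -/
def J_SMOOTHF : Prop := J_CHEB → ∃ C : ℝ, 0 < C ∧ ∀ N : ℕ, 1 ≤ N → ∀ᶠ x : ℕ in atTop, ∀ h : Finset ℕ, h.Nonempty → (∀ j ∈ h, j ≤ x) →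
  (((Icc 1 x).filter (fun n => bi h n < Nat.log 2 x / N)).card : ℝ) ≤ C / N * x

open Classical in
/-- **Job DETF** (uses CHEB, DEPB, TRIVF, SMOOTHF). Few bad scales suffice (deterministic).
Proof. Let `L = Nat.log 2 x`. For `n ≤ x`, `j ≤ x`: `bi h n ≤ L + 1`. `tot = ∑_i part i`. The `n` with `bi h n < i₀ = L / N₀` contribute at
most `(C₀ / N₀) x` (SMOOTHF, `|cor| ≤ 1`, `|w| ≤ 1`). For `i ≥ i₀` and large `x`: `i ≥ L / (2 N₀)`, `2 ^ i ≤ 2 x`, `x < 2 ^ (L + 1) ≤ 2 ^ (3 N₀ i)`, so with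
`N = 3 N₀` each scale `i` that is not bad contributes at most `e x / i ≤ 2 N₀ e x / L`, together at most `4 N₀ e x`, each bad one at
most `C₁ x / i ≤ 2 N₀ C₁ x / L` (TRIVF), together at most `4 N₀ C₁ κ x`. Choose `N₀ ≥ 3 C₀ / ε`, `e = ε / (12 N₀)`, `κ = ε / (12 N₀ C₁)`. -/
def J_DETF : Prop := J_CHEB → J_DEPB → J_TRIVF → J_SMOOTHF → ∀ (r : ℕ) (Fam : ℕ → Finset ((ℕ → ℝ) × Finset ℕ)), IsFam r Fam →
  ∀ ε : ℝ, 0 < ε → ∃ (N : ℕ) (e κ : ℝ), 0 < e ∧ 0 < κ ∧ ∀ᶠ x : ℕ in atTop, ∀ S : Set ℕ,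
    (((Icc 1 (Nat.log 2 x + 1)).filter (fun i => BadF Fam N e i S)).card : ℝ) ≤ κ * (Nat.log 2 x + 1) →
      ∀ q ∈ Fam x, |tot q.1 S q.2 x| ≤ ε * x

open Classical in
/-- **Job DENS.** Densities of random sets of scales.
Proof. (a) Markov's inequality for the (measurable) number of the events which occur. (b) Kronecker's lemma: for `a i ≥ 0`,
`∑ a i / i < ∞` implies `(1 / L) ∑_{i ≤ L} a i → 0` (for `M < L`: at most `(1 / L) ∑_{i ≤ M} a i + ∑_{i > M} a i / i`); the expectation of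
`∑ 1_{B i} / i` is `∑ μ.real (B i) / i < ∞`, so almost surely `∑ 1_{B i} / i < ∞`. -/
def J_DENS : Prop := ∀ (Ω : Type) [MeasurableSpace Ω] (μ : Measure Ω) [IsProbabilityMeasure μ] (B : ℕ → Set Ω),
  (∀ i, MeasurableSet (B i)) →
    (∀ (L : ℕ) (κ : ℝ), 1 ≤ L → 0 < κ → μ.real {ω | κ * L < (((Icc 1 L).filter (fun i => ω ∈ B i)).card : ℝ)} ≤
      (∑ i ∈ Icc 1 L, μ.real (B i)) / (κ * L)) ∧
    (Summable (fun i : ℕ => μ.real (B i) / i) →
      ∀ᵐ ω ∂μ, Tendsto (fun L : ℕ => (((Icc 1 L).filter (fun i => ω ∈ B i)).card : ℝ) / L) atTop (𝓝 0))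

/-- **Job MIXF.** The function `1` with probability `q`.
Proof. On `ℕ → Bool` the measure `(1 - q) • prodMeasure half + q • dirac (fun _ => true)` (`ENNReal.ofReal`), `A = trueSet`. The law on `B` is
`(1 - q) prodOn half B T + q 1_{T = B}`, so by convexity (`Pool.Agent.Q150.TT.t_MIXL`, module `Pool.Agent.Q150.TT.MIXL`) its relative
entropy is at most `q` times `log (1 / prodOn half B B) = |B| log 2`. -/
def J_MIXF : Prop := ∀ q : ℝ, 0 ≤ q → q ≤ 1 → ∃ (Ω : Type) (_ : MeasurableSpace Ω) (μ : Measure Ω) (_ : IsProbabilityMeasure μ)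
  (A : Ω → Set ℕ), IsRandomSet A ∧ (∀ B : Finset ℕ, relEnt half μ A B ≤ q * (B.card * Real.log 2)) ∧
    q ≤ μ.real {ω | A ω = Set.univ}

end Pool.Agent.Q120.FE
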